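import Pool.Agent.W998.KG.Stm

set_option autoImplicit false

namespace Pool.Agent.W191.KG.SWP

open Pool.Agent.Results.MP_633d19_co.SmallDegree
open Pool.Agent.W998.KG

theorem main : PartSWP := by
  classical
  intro V E G k c hc a b K hK
  have key1 : ∀ e v, v ∈ G.ends e → v ∉ K →
      (if ∃ u ∈ G.ends e, u ∈ K then (c e).map (Equiv.swap a b) else c e) = c e := by
    intro e v hv hvK
    split_ifs with h
    · obtain ⟨u, hu, huK⟩ := h
      rcases hce : c e with _ | x
      · rfl
      · have h1 : x ≠ a := by
          rintro rfl
          exact hvK (hK e u v hu hv (Or.inl hce) huK)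
        have h2 : x ≠ b := by
          rintro rfl
          exact hvK (hK e u v hu hv (Or.inr hce) huK)
        simp [Equiv.swap_apply_of_ne_of_ne h1 h2]
    · rfl
  have key2 : ∀ e v, v ∈ G.ends e → v ∈ K →
      (if ∃ u ∈ G.ends e, u ∈ K then (c e).map (Equiv.swap a b) else c e) =
        (c e).map (Equiv.swap a b) := by
    intro e v hv hvK
    rw [if_pos ⟨v, hv, hvK⟩]
  have map_some : ∀ (o : Option (Fin k)) x, o.map (Equiv.swap a b) = some x ↔
      o = some (Equiv.swap a b x) := by
    intro o x
    rcases o with _ | y
    · simp
    · simp only [Option.map_some, Option.some.injEq]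
      constructor
      · rintro rfl
        simp
      · rintro rfl
        simp
  refine ⟨fun e => if ∃ u ∈ G.ends e, u ∈ K then (c e).map (Equiv.swap a b) else c e,
    ?_, ?_, ?_, ?_, ?_, ?_, ?_⟩
  · intro e f v x he hf h1 h2
    by_cases hv : v ∈ K
    · simp only [key2 e v he hv, map_some] at h1
      simp only [key2 f v hf hv, map_some] at h2
      exact hc e f v _ he hf h1 h2
    · simp only [key1 e v he hv] at h1
      simp only [key1 f v hf hv] at h2
      exact hc e f v _ he hf h1 h2
  · intro e
    dsimp only
    split_ifs
    · simp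
    · rfl
  · intro e x h1 h2
    dsimp only
    split_ifs
    · rw [map_some, Equiv.swap_apply_of_ne_of_ne h1 h2]
    · rfl
  · intro v hv x hx e he h
    simp only [key2 e v he hv, map_some, Equiv.swap_apply_self] at h
    exact hx e he h
  · intro v hv x hx e he h
    simp only [key1 e v he hv] at h
    exact hx e he h
  · intro e he
    dsimp only
    rw [if_neg]
    rintro ⟨u, hu, huK⟩
    exact he u hu huK
  · intro e u hu huK
    exact key2 e u hu huK

end Pool.Agent.W191.KG.SWP
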